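import Pool.Agent.LS.Gallagher

set_option autoImplicit false

/-!
# The additive large sieve
-/

namespace Pool.Agent.LS

open MeasureTheory Finset

/-- Integrals over disjoint small intervals are at most the integral over the large one. -/
lemma sum_integral_le {ι : Type} (R : Finset ι) (α : ι → ℝ) (δ c : ℝ) (hδ : 0 < δ)
    (hsep : ∀ i ∈ R, ∀ j ∈ R, i ≠ j → δ ≤ |α i - α j|)
    (hin : ∀ i ∈ R, c ≤ α i - δ / 2 ∧ α i + δ / 2 ≤ c + 1)
    (h : ℝ → ℝ) (hh : Continuous h) (hh0 : ∀ x, 0 ≤ h x) :
    ∑ i ∈ R, ∫ t in (α i - δ / 2)..(α i + δ / 2), h t ≤ ∫ t in c..(c + 1), h t := by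
  have h1 : ∀ i ∈ R, ∫ t in (α i - δ / 2)..(α i + δ / 2), h t
      = ∫ t in Set.Ioc (α i - δ / 2) (α i + δ / 2), h t := fun i _ =>
    intervalIntegral.integral_of_le (by linarith)
  rw [Finset.sum_congr rfl h1, intervalIntegral.integral_of_le (by linarith : c ≤ c + 1)]
  have hint : ∀ a b : ℝ, IntegrableOn h (Set.Ioc a b) := fun a b =>
    (hh.integrableOn_Icc (a := a) (b := b)).mono_set Set.Ioc_subset_Icc_self
  rw [← integral_biUnion_finset R (fun i _ => measurableSet_Ioc)]
  · apply setIntegral_mono_set (hint _ _)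
    · exact Filter.Eventually.of_forall hh0
    · apply LE.le.eventuallyLE
      intro x hx
      simp only [Set.mem_iUnion, Set.mem_Ioc, exists_prop] at hx
      obtain ⟨i, hi, h2, h3⟩ := hx
      have h4 := hin i hi
      exact ⟨by linarith, by linarith⟩
  · intro i hi j hj hij
    rw [Function.onFun, Set.disjoint_left]
    rintro x ⟨h2, h3⟩ ⟨h4, h5⟩
    have h6 := hsep i hi j hj hij
    rw [le_abs] at h6
    rcases h6 with h6 | h6
    · linarith
    · linarith
  · intro i _
    exact hint _ _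

/-- The additive large sieve (Gallagher), for trigonometric polynomials with frequencies in
`[-N/2, N/2]` and points with disjoint intervals of length `δ` in one period. -/
theorem additive_large_sieve {ι : Type} (R : Finset ι) (α : ι → ℝ) (δ c : ℝ) (hδ : 0 < δ)
    (hsep : ∀ i ∈ R, ∀ j ∈ R, i ≠ j → δ ≤ |α i - α j|)
    (hin : ∀ i ∈ R, c ≤ α i - δ / 2 ∧ α i + δ / 2 ≤ c + 1)
    (K : Finset ℤ) (b : ℤ → ℂ) (N : ℝ) (hN : 0 < N) (hK : ∀ k ∈ K, |(k : ℝ)| ≤ N / 2) :
    ∑ i ∈ R, ‖∑ k ∈ K, b k * ee (k * α i)‖ ^ 2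
      ≤ (1 / δ + 2 * Real.pi * N) * ∑ k ∈ K, ‖b k‖ ^ 2 := by
  set S : ℝ → ℂ := fun t => ∑ k ∈ K, b k * ee (k * t) with hS
  set S' : ℝ → ℂ := fun t => ∑ k ∈ K, (2 * Real.pi * Complex.I * (k : ℝ) * b k) * ee (k * t)
    with hS'
  have hd : ∀ x, HasDerivAt S (S' x) x := by
    intro x
    simp only [hS, hS']
    apply HasDerivAt.fun_sum
    intro k _
    have := (hasDerivAt_ee k x).const_mul (b k)
    refine this.congr_deriv ?_
    ring
  have hSc : Continuous S := continuous_iff_continuousAt.2 fun x => (hd x).continuousAt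
  have hS'c : Continuous S' := continuous_finsetSum _ fun k _ => (continuous_ee _).const_mul _
  set A := ∑ k ∈ K, ‖b k‖ ^ 2 with hA
  have hpi := Real.pi_pos
  have hP : ∫ t in c..(c + 1), ‖S t‖ ^ 2 = A := parseval K b c
  have hP' : ∫ t in c..(c + 1), ‖S' t‖ ^ 2 ≤ (Real.pi * N) ^ 2 * A := by
    have h1 := parseval K (fun k => 2 * Real.pi * Complex.I * (k : ℝ) * b k) c
    rw [hS', h1, hA, Finset.mul_sum]
    apply Finset.sum_le_sum
    intro k hk
    have h2 : ‖2 * Real.pi * Complex.I * ((k : ℝ) : ℂ) * b k‖ = 2 * Real.pi * |(k : ℝ)| * ‖b k‖ := by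
      simp only [norm_mul, Complex.norm_I, mul_one, Complex.norm_real, Real.norm_eq_abs,
        abs_of_pos hpi, Complex.norm_ofNat]
    rw [h2, mul_pow]
    apply mul_le_mul_of_nonneg_right _ (by positivity)
    have h3 := hK k hk
    have h4 : 0 ≤ |(k : ℝ)| := abs_nonneg _
    apply pow_le_pow_left₀ (by positivity)
    nlinarith
  -- pointwise inequality
  have hpt : ∀ i ∈ R, ‖S (α i)‖ ^ 2 ≤ ∫ t in (α i - δ / 2)..(α i + δ / 2),
      ((1 / δ) * ‖S t‖ ^ 2 + (Real.pi * N * ‖S t‖ ^ 2 + (Real.pi * N)⁻¹ * ‖S' t‖ ^ 2)) := by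
    intro i _
    have h1 := sobolev (fun t => S t * S t) (fun t => S' t * S t + S t * S' t)
      (fun x => (hd x).mul (hd x)) ((hS'c.mul hSc).add (hSc.mul hS'c)) (α i) δ hδ
    have e1 : ∀ t, ‖S t * S t‖ = ‖S t‖ ^ 2 := fun t => by rw [norm_mul, sq]
    simp only [e1] at h1
    refine h1.trans ?_
    rw [intervalIntegral.integral_add]
    · rw [intervalIntegral.integral_const_mul]
      have h2 : ∫ t in (α i - δ / 2)..(α i + δ / 2), ‖S' t * S t + S t * S' t‖
          ≤ ∫ t in (α i - δ / 2)..(α i + δ / 2),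
            (Real.pi * N * ‖S t‖ ^ 2 + (Real.pi * N)⁻¹ * ‖S' t‖ ^ 2) := by
        apply intervalIntegral.integral_mono_on (by linarith)
        · exact (((hS'c.mul hSc).add (hSc.mul hS'c)).norm).intervalIntegrable _ _
        · exact (((hSc.norm.pow 2).const_mul _).add
            ((hS'c.norm.pow 2).const_mul _)).intervalIntegrable _ _
        · intro t _
          have e2 : S' t * S t + S t * S' t = 2 * (S t * S' t) := by ring
          rw [e2, norm_mul, norm_mul, Complex.norm_ofNat]
          set x := ‖S t‖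
          set z := ‖S' t‖
          have hm : 0 < Real.pi * N := mul_pos hpi hN
          have h5 : 0 ≤ (Real.pi * N)⁻¹ * (Real.pi * N * x - z) ^ 2 := by positivity
          have h6 : (Real.pi * N)⁻¹ * (Real.pi * N * x - z) ^ 2
              = Real.pi * N * x ^ 2 - 2 * (x * z) + (Real.pi * N)⁻¹ * z ^ 2 := by
            field_simp
            ring
          linarith
      linarith
    · exact ((hSc.norm.pow 2).const_mul _).intervalIntegrable _ _
    · exact (((hSc.norm.pow 2).const_mul _).add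
        ((hS'c.norm.pow 2).const_mul _)).intervalIntegrable _ _
  refine (Finset.sum_le_sum hpt).trans ?_
  refine (sum_integral_le R α δ c hδ hsep hin _ ?_ ?_).trans ?_
  · exact (((hSc.norm.pow 2).const_mul _).add (((hSc.norm.pow 2).const_mul _).add
        ((hS'c.norm.pow 2).const_mul _)))
  · intro x
    positivity
  · rw [intervalIntegral.integral_add, intervalIntegral.integral_add,
      intervalIntegral.integral_const_mul, intervalIntegral.integral_const_mul,
      intervalIntegral.integral_const_mul, hP]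
    · have hm : 0 < Real.pi * N := mul_pos hpi hN
      have h7 : (Real.pi * N)⁻¹ * ∫ t in c..(c + 1), ‖S' t‖ ^ 2
          ≤ (Real.pi * N)⁻¹ * ((Real.pi * N) ^ 2 * A) :=
        mul_le_mul_of_nonneg_left hP' (by positivity)
      have h8 : (Real.pi * N)⁻¹ * ((Real.pi * N) ^ 2 * A) = Real.pi * N * A := by
        field_simp
      linarith
    · exact ((hSc.norm.pow 2).const_mul _).intervalIntegrable _ _
    · exact ((hS'c.norm.pow 2).const_mul _).intervalIntegrable _ _
    · exact ((hSc.norm.pow 2).const_mul _).intervalIntegrable _ _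
    · exact (((hSc.norm.pow 2).const_mul _).add
        ((hS'c.norm.pow 2).const_mul _)).intervalIntegrable _ _

end Pool.Agent.LS
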