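import Pool.Agent.LS.Farey

set_option autoImplicit false

/-!
# The multiplicative large sieve
-/

namespace Pool.Agent.LS

open Finset ZMod

variable {q : ℕ} [NeZero q]

lemma norm_sq_complex (z : ℂ) : ((‖z‖ ^ 2 : ℝ) : ℂ) = z * (starRingEnd ℂ) z := by
  rw [Complex.mul_conj, Complex.normSq_eq_norm_sq]

lemma conj_addChar (x : ZMod q) :
    (starRingEnd ℂ) (stdAddChar x) = stdAddChar (-x) := by
  have h : ‖(stdAddChar x : ℂ)‖ = 1 := by
    rw [stdAddChar_apply]
    exact Circle.norm_coe _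
  rw [AddChar.map_neg_eq_inv, Complex.inv_def, Complex.normSq_eq_norm_sq, h]
  simp

/-- Parseval for the additive characters. -/
lemma parseval_add (f : ZMod q → ℂ) :
    ∑ n : ZMod q, ‖∑ x, f x * stdAddChar (n * x)‖ ^ 2 = q * ∑ x, ‖f x‖ ^ 2 := by
  have h : ((∑ n : ZMod q, ‖∑ x, f x * stdAddChar (n * x)‖ ^ 2 : ℝ) : ℂ)
      = ((q * ∑ x, ‖f x‖ ^ 2 : ℝ) : ℂ) := by
    push_cast
    have h1 : ∀ n : ZMod q, ((‖∑ x, f x * stdAddChar (n * x)‖ : ℂ)) ^ 2
        = ∑ x, ∑ y, f x * (starRingEnd ℂ) (f y) * stdAddChar (n * (x - y)) := by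
      intro n
      rw [← Complex.ofReal_pow, norm_sq_complex, map_sum, Finset.sum_mul_sum]
      refine Finset.sum_congr rfl fun x _ => Finset.sum_congr rfl fun y _ => ?_
      rw [map_mul (starRingEnd ℂ), conj_addChar]
      have e1 : n * (x - y) = n * x + -(n * y) := by ring
      rw [e1, AddChar.map_add_eq_mul]
      ring
    simp only [h1]
    rw [Finset.sum_comm, Finset.mul_sum]
    refine Finset.sum_congr rfl fun x _ => ?_
    rw [Finset.sum_comm]
    have h2 : ∀ y : ZMod q, ∑ n : ZMod q, f x * (starRingEnd ℂ) (f y) * stdAddChar (n * (x - y))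
        = if y = x then (q : ℂ) * (‖f x‖ : ℂ) ^ 2 else 0 := by
      intro y
      rw [← Finset.mul_sum, AddChar.sum_mulShift (x - y) (isPrimitive_stdAddChar q)]
      by_cases hxy : y = x
      · subst hxy
        simp only [sub_self, if_true, ZMod.card]
        rw [← Complex.ofReal_pow, norm_sq_complex]
        ring
      · have : x - y ≠ 0 := fun h => hxy (sub_eq_zero.mp h).symm
        simp [this, hxy]
    simp only [h2]
    rw [Finset.sum_ite_eq' Finset.univ x]
    simp
  exact_mod_cast h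

omit [NeZero q] in
lemma conj_char (χ : DirichletCharacter ℂ q) {a : ZMod q} (ha : IsUnit a) :
    (starRingEnd ℂ) (χ a) = χ a⁻¹ := by
  have h1 : χ⁻¹ a * χ a = 1 := by
    rw [← MulChar.mul_apply, inv_mul_cancel, MulChar.one_apply ha]
  have h2 : χ a⁻¹ * χ a = 1 := by
    rw [← map_mul, ZMod.inv_mul_of_unit a ha, map_one]
  have h3 : χ a ≠ 0 := right_ne_zero_of_mul (h1.trans_ne one_ne_zero)
  have h4 : (starRingEnd ℂ) (χ a) = χ⁻¹ a := MulChar.star_apply' χ a
  rw [h4]
  exact mul_right_cancel₀ h3 (h1.trans h2.symm)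

/-- Parseval for the multiplicative characters. -/
lemma parseval_mul (F : ZMod q → ℂ) :
    ∑ χ : DirichletCharacter ℂ q, ‖∑ x, (starRingEnd ℂ) (χ x) * F x‖ ^ 2
      = q.totient * ∑ x ∈ univ.filter (fun x : ZMod q => IsUnit x), ‖F x‖ ^ 2 := by
  classical
  have h : ((∑ χ : DirichletCharacter ℂ q, ‖∑ x, (starRingEnd ℂ) (χ x) * F x‖ ^ 2 : ℝ) : ℂ)
      = ((q.totient * ∑ x ∈ univ.filter (fun x : ZMod q => IsUnit x), ‖F x‖ ^ 2 : ℝ) : ℂ) := by
    push_cast
    have h1 : ∀ χ : DirichletCharacter ℂ q, ((‖∑ x, (starRingEnd ℂ) (χ x) * F x‖ : ℂ)) ^ 2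
        = ∑ x, ∑ y, (F x * (starRingEnd ℂ) (F y)) * ((starRingEnd ℂ) (χ x) * χ y) := by
      intro χ
      rw [← Complex.ofReal_pow, norm_sq_complex, map_sum, Finset.sum_mul_sum]
      refine Finset.sum_congr rfl fun x _ => Finset.sum_congr rfl fun y _ => ?_
      rw [map_mul (starRingEnd ℂ), Complex.conj_conj]
      ring
    simp only [h1]
    rw [Finset.sum_comm, Finset.mul_sum, Finset.sum_filter]
    refine Finset.sum_congr rfl fun x _ => ?_
    rw [Finset.sum_comm]
    split_ifs with hx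
    · have h2 : ∀ y : ZMod q, ∑ χ : DirichletCharacter ℂ q,
          (F x * (starRingEnd ℂ) (F y)) * ((starRingEnd ℂ) (χ x) * χ y)
          = if x = y then (q.totient : ℂ) * (‖F x‖ : ℂ) ^ 2 else 0 := by
        intro y
        rw [← Finset.mul_sum]
        have h3 : ∑ χ : DirichletCharacter ℂ q, (starRingEnd ℂ) (χ x) * χ y
            = if x = y then (q.totient : ℂ) else 0 := by
          rw [← DirichletCharacter.sum_char_inv_mul_char_eq ℂ hx y]
          exact Finset.sum_congr rfl fun χ _ => by rw [conj_char χ hx]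
        rw [h3]
        by_cases hxy : x = y
        · subst hxy
          simp only [if_true]
          rw [← Complex.ofReal_pow, norm_sq_complex]
          ring
        · simp [hxy]
      simp only [h2]
      rw [Finset.sum_ite_eq Finset.univ x]
      simp
    · have h2 : ∀ y : ZMod q, ∑ χ : DirichletCharacter ℂ q,
          (F x * (starRingEnd ℂ) (F y)) * ((starRingEnd ℂ) (χ x) * χ y) = 0 := by
        intro y
        refine Finset.sum_eq_zero fun χ _ => ?_
        rw [MulChar.map_nonunit χ hx]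
        simp
      simp only [h2, Finset.sum_const_zero]
  exact_mod_cast h

lemma sum_norm_char_sq (χ : DirichletCharacter ℂ q) :
    ∑ x : ZMod q, ‖χ x‖ ^ 2 = q.totient := by
  classical
  have h1 : ∀ x : ZMod q, ‖χ x‖ ^ 2 = if IsUnit x then (1:ℝ) else 0 := by
    intro x
    split_ifs with hx
    · have h2 : χ x⁻¹ * χ x = 1 := by
        rw [← map_mul, ZMod.inv_mul_of_unit x hx, map_one]
      have h3 : ((‖χ x‖ ^ 2 : ℝ) : ℂ) = 1 := by
        rw [norm_sq_complex, conj_char χ hx, mul_comm]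
        exact h2
      exact_mod_cast h3
    · rw [MulChar.map_nonunit χ hx]
      simp
  simp only [h1]
  rw [← Finset.sum_filter, Finset.sum_const, nsmul_eq_mul, mul_one]
  congr 1
  rw [← ZMod.card_units_eq_totient q, ← Finset.card_univ]
  symm
  refine Finset.card_bij (fun (u : (ZMod q)ˣ) _ => (u : ZMod q)) ?_ ?_ ?_
  · intro u _
    rw [Finset.mem_filter]
    exact ⟨Finset.mem_univ _, u.isUnit⟩
  · intro u _ v _ h
    exact Units.ext h
  · intro b hb
    rw [Finset.mem_filter] at hb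
    obtain ⟨u, hu⟩ := hb.2
    exact ⟨u, Finset.mem_univ _, hu⟩

/-- The Gauss sum of a primitive character has absolute value `√q`. -/
lemma norm_gaussSum_sq (χ : DirichletCharacter ℂ q) (hχ : χ.IsPrimitive) :
    ‖gaussSum χ (stdAddChar (N := q))‖ ^ 2 = q := by
  have hφ : (0:ℝ) < q.totient := by
    exact_mod_cast Nat.totient_pos.mpr (Nat.pos_of_ne_zero (NeZero.ne q))
  have h1 := parseval_add (fun x => χ x)
  have h2 : ∀ n : ZMod q, ∑ x, χ x * stdAddChar (n * x)
      = χ⁻¹ n * gaussSum χ (stdAddChar (N := q)) := by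
    intro n
    rw [← gaussSum_mulShift_of_isPrimitive _ hχ n]
    rfl
  simp only [h2, norm_mul, mul_pow] at h1
  rw [← Finset.sum_mul, sum_norm_char_sq, sum_norm_char_sq, mul_comm] at h1
  exact mul_right_cancel₀ hφ.ne' h1

end Pool.Agent.LS
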