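import Pool.Agent.LS.Additive

set_option autoImplicit false

/-!
# The large sieve at the Farey fractions
-/

namespace Pool.Agent.LS

open Finset

/-- The exponential sum. -/
noncomputable def TT (M N : ℕ) (a : ℕ → ℂ) (α : ℝ) : ℂ := ∑ n ∈ Ioc M (M + N), a n * ee (n * α)

/-- Centering of the frequencies. -/
lemma TT_center (M N : ℕ) (a : ℕ → ℂ) : ∃ (K : Finset ℤ) (b : ℤ → ℂ),
    (∀ k ∈ K, |(k : ℝ)| ≤ (N : ℝ) / 2) ∧ (∀ α, ‖TT M N a α‖ = ‖∑ k ∈ K, b k * ee (k * α)‖) ∧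
    ∑ k ∈ K, ‖b k‖ ^ 2 = ∑ n ∈ Ioc M (M + N), ‖a n‖ ^ 2 := by
  classical
  set c : ℤ := ((M + (N + 1) / 2 : ℕ) : ℤ) with hc
  have hinj : Set.InjOn (fun n : ℕ => (n : ℤ) - c) (Ioc M (M + N)) := by
    intro x _ y _ hxy
    simp only at hxy
    omega
  refine ⟨(Ioc M (M + N)).image (fun n : ℕ => (n : ℤ) - c), fun k => a (k + c).toNat, ?_, ?_, ?_⟩
  · intro k hk
    rw [Finset.mem_image] at hk
    obtain ⟨n, hn, rfl⟩ := hk
    rw [Finset.mem_Ioc] at hn
    have h1 : 2 * ((n : ℤ) - c) ≤ N := by rw [hc]; push_cast; omega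
    have h2 : -(N : ℤ) ≤ 2 * ((n : ℤ) - c) := by rw [hc]; push_cast; omega
    have h1' : (2 * (((n : ℤ) - c : ℤ) : ℝ)) ≤ N := by exact_mod_cast h1
    have h2' : -(N : ℝ) ≤ (2 * (((n : ℤ) - c : ℤ) : ℝ)) := by exact_mod_cast h2
    rw [abs_le]
    constructor <;> linarith
  · intro α
    rw [Finset.sum_image hinj]
    have h1 : ∀ n ∈ Ioc M (M + N), a (((n : ℤ) - c) + c).toNat * ee ((((n : ℤ) - c : ℤ) : ℝ) * α)
        = ee (-(c * α)) * (a n * ee (n * α)) := by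
      intro n _
      have e1 : (((n : ℤ) - c) + c).toNat = n := by
        rw [sub_add_cancel]
        exact Int.toNat_natCast n
      have e2 : ((((n : ℤ) - c : ℤ) : ℝ) * α) = -(c * α) + n * α := by
        push_cast
        ring
      rw [e1, e2, ee_add]
      ring
    rw [Finset.sum_congr rfl h1, ← Finset.mul_sum, norm_mul, norm_ee, one_mul]
    rfl
  · rw [Finset.sum_image hinj]
    refine Finset.sum_congr rfl fun n _ => ?_
    have e1 : (((n : ℤ) - c) + c).toNat = n := by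
      rw [sub_add_cancel]
      exact Int.toNat_natCast n
    show ‖a (((n : ℤ) - c) + c).toNat‖ ^ 2 = ‖a n‖ ^ 2
    rw [e1]

lemma farey_sep (Q q q' b b' : ℕ) (hq : 1 ≤ q) (hqQ : q ≤ Q) (hq' : 1 ≤ q') (hqQ' : q' ≤ Q)
    (hb : Nat.Coprime b q) (hb' : Nat.Coprime b' q') (hne : ¬ (q = q' ∧ b = b')) :
    1 / (Q : ℝ) ^ 2 ≤ |(b : ℝ) / q - (b' : ℝ) / q'| := by
  have hqR : (0:ℝ) < q := by exact_mod_cast hq
  have hqR' : (0:ℝ) < q' := by exact_mod_cast hq'
  have h1 : b * q' ≠ b' * q := by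
    intro h
    have h2 : q ∣ q' := hb.symm.dvd_of_dvd_mul_left (Dvd.intro_left b' h.symm)
    have h3 : q' ∣ q := hb'.symm.dvd_of_dvd_mul_left (Dvd.intro_left b h)
    have h4 : q = q' := Nat.dvd_antisymm h2 h3
    subst h4
    have h5 : b = b' := Nat.eq_of_mul_eq_mul_right (by omega) h
    exact hne ⟨rfl, h5⟩
  have h2 : (1:ℝ) ≤ |(b : ℝ) * q' - b' * q| := by
    have h3 : ((b : ℤ) * q' - b' * q) ≠ 0 := by
      rw [sub_ne_zero]
      exact_mod_cast h1
    have h4 : (1 : ℤ) ≤ |(b : ℤ) * q' - b' * q| := Int.one_le_abs h3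
    exact_mod_cast h4
  have h3 : (b : ℝ) / q - (b' : ℝ) / q' = ((b : ℝ) * q' - b' * q) / (q * q') := by
    field_simp
  rw [h3, abs_div, abs_of_pos (mul_pos hqR hqR')]
  have h4 : (q : ℝ) * q' ≤ (Q : ℝ) ^ 2 := by
    rw [sq]
    exact mul_le_mul (by exact_mod_cast hqQ) (by exact_mod_cast hqQ') hqR'.le (by positivity)
  exact div_le_div₀ (by linarith) h2 (mul_pos hqR hqR') h4

/-- The large sieve inequality at the Farey fractions of order `Q`. -/
theorem farey_large_sieve (Q M N : ℕ) (a : ℕ → ℂ) :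
    ∑ q ∈ Icc 1 Q, ∑ b ∈ (range q).filter (fun b => Nat.Coprime b q),
        ‖TT M N a ((b : ℝ) / q)‖ ^ 2
      ≤ ((Q : ℝ) ^ 2 + 2 * Real.pi * N) * ∑ n ∈ Ioc M (M + N), ‖a n‖ ^ 2 := by
  classical
  rcases Nat.eq_zero_or_pos N with rfl | hN
  · simp [TT]
  rcases Nat.eq_zero_or_pos Q with rfl | hQ
  · rw [Finset.Icc_eq_empty (by norm_num), Finset.sum_empty]
    positivity
  have hQR : (1:ℝ) ≤ Q := by exact_mod_cast hQ
  have hNR : (0:ℝ) < N := by exact_mod_cast hN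
  obtain ⟨K, b, hK, hTT, hsum⟩ := TT_center M N a
  have hδ : (0:ℝ) < 1 / (Q : ℝ) ^ 2 := by positivity
  have hmain := additive_large_sieve
    ((Icc 1 Q).sigma fun q => (range q).filter (fun b => Nat.Coprime b q))
    (fun x => (x.2 : ℝ) / x.1) (1 / (Q : ℝ) ^ 2) (-(1 / (Q : ℝ) ^ 2 / 2)) hδ
    (by
      rintro ⟨q, x⟩ hx ⟨q', x'⟩ hx' hne
      simp only [Finset.mem_sigma, Finset.mem_Icc, Finset.mem_filter, Finset.mem_range] at hx hx'
      apply farey_sep Q q q' x x' hx.1.1 hx.1.2 hx'.1.1 hx'.1.2 hx.2.2 hx'.2.2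
      rintro ⟨rfl, rfl⟩
      exact hne rfl)
    (by
      rintro ⟨q, x⟩ hx
      simp only [Finset.mem_sigma, Finset.mem_Icc, Finset.mem_filter, Finset.mem_range] at hx
      have hqR : (1:ℝ) ≤ q := by exact_mod_cast hx.1.1
      have hqQ : (q:ℝ) ≤ Q := by exact_mod_cast hx.1.2
      have hx1 : (x : ℝ) + 1 ≤ q := by exact_mod_cast hx.2.1
      have hx0 : (0:ℝ) ≤ x := by positivity
      have h1 : (0:ℝ) ≤ (x : ℝ) / q := by positivity
      have h2 : (x : ℝ) / q ≤ 1 - 1 / q := by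
        rw [div_le_iff₀ (by linarith), sub_mul, one_div, inv_mul_cancel₀ (by linarith)]
        linarith
      have h3 : 1 / (Q : ℝ) ^ 2 ≤ 1 / q := by
        apply one_div_le_one_div_of_le (by linarith)
        nlinarith
      constructor
      · simp only
        linarith
      · simp only
        linarith) K b N hNR hK
  rw [hsum, one_div_one_div] at hmain
  rw [Finset.sum_sigma']
  refine le_trans (le_of_eq ?_) hmain
  refine Finset.sum_congr rfl fun x _ => ?_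
  rw [hTT]

end Pool.Agent.LS
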