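import Mathlib

set_option autoImplicit false

/-!
# The large sieve inequality (Gallagher's proof)
-/

namespace Pool.Agent.LS

open MeasureTheory Finset

/-- `e(x) = exp(2 π i x)`. -/
noncomputable def ee (x : ℝ) : ℂ := Complex.exp (2 * Real.pi * Complex.I * x)

lemma ee_zero : ee 0 = 1 := by simp [ee]

lemma ee_add (x y : ℝ) : ee (x + y) = ee x * ee y := by
  unfold ee
  rw [← Complex.exp_add]
  congr 1
  push_cast
  ring

lemma norm_ee (x : ℝ) : ‖ee x‖ = 1 := by
  unfold ee
  rw [show (2 * Real.pi * Complex.I * x : ℂ) = ((2 * Real.pi * x : ℝ) : ℂ) * Complex.I by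
    push_cast; ring]
  exact Complex.norm_exp_ofReal_mul_I _

lemma conj_ee (x : ℝ) : (starRingEnd ℂ) (ee x) = ee (-x) := by
  unfold ee
  rw [← Complex.exp_conj]
  congr 1
  simp only [map_mul, Complex.conj_ofReal, Complex.conj_I, map_ofNat]
  push_cast
  ring

lemma ee_int (k : ℤ) : ee k = 1 := by
  unfold ee
  rw [Complex.exp_eq_one_iff]
  exact ⟨k, by push_cast; ring⟩

lemma hasDerivAt_ee (k x : ℝ) :
    HasDerivAt (fun x : ℝ => ee (k * x)) ((2 * Real.pi * Complex.I * k) * ee (k * x)) x := by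
  unfold ee
  have h1 : HasDerivAt (fun z : ℂ => 2 * Real.pi * Complex.I * (k * z))
      (2 * Real.pi * Complex.I * k) (x : ℂ) := by
    have := (hasDerivAt_id (x : ℂ)).const_mul (2 * Real.pi * Complex.I * k)
    simp only [id, mul_one] at this
    refine this.congr_of_eventuallyEq (Filter.Eventually.of_forall fun z => ?_)
    simp only
    ring
  have h2 := (h1.cexp).comp_ofReal
  convert h2 using 1
  · funext y
    push_cast
    ring_nf
  · push_cast
    ring

lemma continuous_ee (k : ℝ) : Continuous fun x : ℝ => ee (k * x) :=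
  continuous_iff_continuousAt.2 fun x => (hasDerivAt_ee k x).continuousAt

/-- Sobolev type inequality at the centre of an interval. -/
lemma sobolev (f f' : ℝ → ℂ) (hf : ∀ x, HasDerivAt f (f' x) x) (hf' : Continuous f')
    (α δ : ℝ) (hδ : 0 < δ) :
    ‖f α‖ ≤ (1 / δ) * (∫ t in (α - δ / 2)..(α + δ / 2), ‖f t‖)
      + ∫ t in (α - δ / 2)..(α + δ / 2), ‖f' t‖ := by
  have hfc : Continuous f := continuous_iff_continuousAt.2 fun x => (hf x).continuousAt
  set D := ∫ t in (α - δ / 2)..(α + δ / 2), ‖f' t‖ with hD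
  have hpt : ∀ t ∈ Set.Icc (α - δ / 2) (α + δ / 2), ‖f α‖ - D ≤ ‖f t‖ := by
    intro t ht
    have h1 : ∫ s in t..α, f' s = f α - f t :=
      intervalIntegral.integral_eq_sub_of_hasDerivAt (fun s _ => hf s)
        (hf'.intervalIntegrable _ _)
    have h2 : ‖f α - f t‖ ≤ D := by
      rw [← h1]
      refine (intervalIntegral.norm_integral_le_abs_integral_norm).trans ?_
      rw [hD]
      have h3 : |∫ s in t..α, ‖f' s‖| ≤ |∫ s in (α - δ / 2)..(α + δ / 2), ‖f' s‖| := by
        apply intervalIntegral.abs_integral_mono_interval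
        · rw [Set.uIoc_of_le (by linarith : α - δ / 2 ≤ α + δ / 2)]
          rcases le_total t α with h | h
          · rw [Set.uIoc_of_le h]
            exact Set.Ioc_subset_Ioc ht.1 (by linarith)
          · rw [Set.uIoc_of_ge h]
            exact Set.Ioc_subset_Ioc (by linarith) ht.2
        · exact Filter.Eventually.of_forall fun s => norm_nonneg _
        · exact (hf'.norm).intervalIntegrable _ _
      refine h3.trans (le_of_eq ?_)
      rw [abs_of_nonneg]
      exact intervalIntegral.integral_nonneg (by linarith) fun s _ => norm_nonneg _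
    have h4 := norm_sub_norm_le (f α) (f t)
    linarith
  have h5 : ∫ t in (α - δ / 2)..(α + δ / 2), (‖f α‖ - D)
      ≤ ∫ t in (α - δ / 2)..(α + δ / 2), ‖f t‖ := by
    apply intervalIntegral.integral_mono_on (by linarith) (by simp)
      (hfc.norm.intervalIntegrable _ _) hpt
  rw [intervalIntegral.integral_const, smul_eq_mul] at h5
  have h6 : (α + δ / 2 - (α - δ / 2)) = δ := by ring
  rw [h6] at h5
  have h7 : ‖f α‖ - D ≤ (1 / δ) * ∫ t in (α - δ / 2)..(α + δ / 2), ‖f t‖ := by
    rw [one_div, ← div_eq_inv_mul, le_div_iff₀ hδ]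
    linarith
  linarith

/-- Orthogonality. -/
lemma integral_ee (k : ℤ) (c : ℝ) :
    ∫ t in c..(c + 1), ee (k * t) = if k = 0 then 1 else 0 := by
  split_ifs with hk
  · subst hk
    simp [ee_zero]
  · have hk0 : (2 * Real.pi * Complex.I * ((k : ℝ) : ℂ)) ≠ 0 := by
      have h1 : (k : ℂ) ≠ 0 := by exact_mod_cast hk
      have h2 : (Real.pi : ℂ) ≠ 0 := by exact_mod_cast Real.pi_ne_zero
      simp [h1, h2]
    have h1 : ∀ x ∈ Set.uIcc c (c + 1), HasDerivAt
        (fun x : ℝ => (2 * Real.pi * Complex.I * ((k : ℝ) : ℂ))⁻¹ * ee (k * x))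
        (ee (k * x)) x := by
      intro x _
      have := (hasDerivAt_ee k x).const_mul (2 * Real.pi * Complex.I * ((k : ℝ) : ℂ))⁻¹
      rw [← mul_assoc, inv_mul_cancel₀ hk0, one_mul] at this
      exact this
    rw [intervalIntegral.integral_eq_sub_of_hasDerivAt h1
      ((continuous_ee k).intervalIntegrable _ _)]
    have h2 : (k : ℝ) * (c + 1) = k * c + k := by ring
    rw [h2, ee_add, ee_int, mul_one, sub_self]

/-- Parseval. -/
lemma parseval (K : Finset ℤ) (b : ℤ → ℂ) (c : ℝ) :
    ∫ t in c..(c + 1), ‖∑ k ∈ K, b k * ee (k * t)‖ ^ 2 = ∑ k ∈ K, ‖b k‖ ^ 2 := by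
  have h1 : ∀ t : ℝ, ((‖∑ k ∈ K, b k * ee (k * t)‖ ^ 2 : ℝ) : ℂ)
      = ∑ k ∈ K, ∑ l ∈ K, (b k * (starRingEnd ℂ) (b l)) * ee (((k - l : ℤ) : ℝ) * t) := by
    intro t
    have h0 : ((‖∑ k ∈ K, b k * ee (k * t)‖ ^ 2 : ℝ) : ℂ)
        = (∑ k ∈ K, b k * ee (k * t)) * (starRingEnd ℂ) (∑ k ∈ K, b k * ee (k * t)) := by
      rw [Complex.mul_conj, Complex.normSq_eq_norm_sq]
    rw [h0, map_sum, Finset.sum_mul_sum]
    refine Finset.sum_congr rfl fun k _ => Finset.sum_congr rfl fun l _ => ?_
    rw [map_mul, conj_ee]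
    have e1 : (((k - l : ℤ) : ℝ) * t) = k * t + -(l * t) := by push_cast; ring
    rw [e1, ee_add]
    ring
  have h2 : ((∫ t in c..(c + 1), ‖∑ k ∈ K, b k * ee (k * t)‖ ^ 2 : ℝ) : ℂ)
      = ((∑ k ∈ K, ‖b k‖ ^ 2 : ℝ) : ℂ) := by
    rw [← intervalIntegral.integral_ofReal]
    simp only [h1]
    rw [intervalIntegral.integral_finsetSum]
    · have h3 : ∀ k ∈ K, ∫ t in c..(c + 1), ∑ l ∈ K, (b k * (starRingEnd ℂ) (b l))
          * ee (((k - l : ℤ) : ℝ) * t) = ((‖b k‖ ^ 2 : ℝ) : ℂ) := by
        intro k hk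
        rw [intervalIntegral.integral_finsetSum]
        · have h4 : ∀ l ∈ K, ∫ t in c..(c + 1), (b k * (starRingEnd ℂ) (b l))
              * ee (((k - l : ℤ) : ℝ) * t)
              = if k = l then ((‖b k‖ ^ 2 : ℝ) : ℂ) else 0 := by
            intro l _
            rw [intervalIntegral.integral_const_mul, integral_ee]
            by_cases hkl : k = l
            · subst hkl
              simp only [sub_self, if_true, mul_one]
              rw [Complex.mul_conj, Complex.normSq_eq_norm_sq]
            · have : k - l ≠ 0 := sub_ne_zero.mpr hkl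
              simp [this, hkl]
          rw [Finset.sum_congr rfl h4, Finset.sum_ite_eq]
          simp [hk]
        · intro l _
          exact ((continuous_ee _).const_mul _).intervalIntegrable _ _
      rw [Finset.sum_congr rfl h3]
      push_cast
      rfl
    · intro k _
      exact (continuous_finsetSum _ fun l _ =>
        (continuous_ee _).const_mul _).intervalIntegrable _ _
  exact_mod_cast h2

end Pool.Agent.LS
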