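import Pool.Agent.LS.Char

set_option autoImplicit false

/-!
# The multiplicative large sieve
-/

namespace Pool.Agent.LS

open Finset ZMod

open Classical in
/-- The primitive characters modulo `q`. -/
noncomputable def prim (q : ℕ) : Finset (DirichletCharacter ℂ q) :=
  univ.filter (fun χ => χ.IsPrimitive)

lemma mem_prim {q : ℕ} {χ : DirichletCharacter ℂ q} : χ ∈ prim q ↔ χ.IsPrimitive := by
  simp [prim]

/-- The values of the exponential sum at the fractions `b / q`. -/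
lemma TT_eq_stdAddChar {q : ℕ} [NeZero q] (M N : ℕ) (a : ℕ → ℂ) (b : ℕ) :
    TT M N a ((b : ℝ) / q)
      = ∑ n ∈ Ioc M (M + N), a n * stdAddChar ((n : ZMod q) * (b : ZMod q)) := by
  unfold TT
  refine Finset.sum_congr rfl fun n _ => ?_
  congr 1
  have h1 : ((n : ZMod q) * (b : ZMod q)) = (((n * b : ℕ) : ℤ) : ZMod q) := by
    push_cast
    rfl
  rw [h1, stdAddChar_coe]
  unfold ee
  congr 1
  push_cast
  ring

/-- A primitive character sum through the exponential sums. -/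
lemma norm_sum_char_sq {q : ℕ} [NeZero q] (χ : DirichletCharacter ℂ q) (hχ : χ.IsPrimitive)
    (M N : ℕ) (a : ℕ → ℂ) :
    (q : ℝ) * ‖∑ n ∈ Ioc M (M + N), a n * χ (n : ZMod q)‖ ^ 2
      = ‖∑ x : ZMod q, (starRingEnd ℂ) (χ x)
          * ∑ n ∈ Ioc M (M + N), a n * stdAddChar ((n : ZMod q) * (-x))‖ ^ 2 := by
  have h1 : ∀ n : ZMod q, ∑ x : ZMod q, (starRingEnd ℂ) (χ x) * stdAddChar (n * (-x))
      = χ n * (starRingEnd ℂ) (gaussSum χ (stdAddChar (N := q))) := by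
    intro n
    have h2 := gaussSum_mulShift_of_isPrimitive (stdAddChar (N := q)) hχ n
    have h3 := congrArg (starRingEnd ℂ) h2
    rw [map_mul (starRingEnd ℂ)] at h3
    have h4 : (starRingEnd ℂ) (χ⁻¹ n) = χ n := by
      have h5 := MulChar.star_apply' χ⁻¹ n
      rw [inv_inv] at h5
      exact h5
    rw [h4] at h3
    rw [← h3, gaussSum, map_sum]
    refine Finset.sum_congr rfl fun x _ => ?_
    rw [map_mul (starRingEnd ℂ), AddChar.mulShift_apply, conj_addChar, mul_neg]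
  have h2 : ∑ x : ZMod q, (starRingEnd ℂ) (χ x)
          * ∑ n ∈ Ioc M (M + N), a n * stdAddChar ((n : ZMod q) * (-x))
      = (∑ n ∈ Ioc M (M + N), a n * χ (n : ZMod q))
          * (starRingEnd ℂ) (gaussSum χ (stdAddChar (N := q))) := by
    simp only [Finset.mul_sum]
    rw [Finset.sum_comm, Finset.sum_mul]
    refine Finset.sum_congr rfl fun n _ => ?_
    rw [mul_assoc, ← h1, Finset.mul_sum]
    refine Finset.sum_congr rfl fun x _ => ?_
    ring
  rw [h2, norm_mul, RCLike.norm_conj, mul_pow, norm_gaussSum_sq χ hχ]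
  ring

/-- The sum over the primitive characters of one modulus. -/
lemma sum_prim_le {q : ℕ} [NeZero q] (M N : ℕ) (a : ℕ → ℂ) :
    (q : ℝ) * ∑ χ ∈ prim q,
        ‖∑ n ∈ Ioc M (M + N), a n * χ (n : ZMod q)‖ ^ 2
      ≤ q.totient * ∑ b ∈ (range q).filter (fun b => Nat.Coprime b q),
        ‖TT M N a ((b : ℝ) / q)‖ ^ 2 := by
  classical
  have h1 : (q : ℝ) * ∑ χ ∈ prim q, ‖∑ n ∈ Ioc M (M + N), a n * χ (n : ZMod q)‖ ^ 2
      ≤ ∑ χ : DirichletCharacter ℂ q, ‖∑ x : ZMod q, (starRingEnd ℂ) (χ x)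
          * ∑ n ∈ Ioc M (M + N), a n * stdAddChar ((n : ZMod q) * (-x))‖ ^ 2 := by
    rw [Finset.mul_sum]
    refine le_trans (le_of_eq ?_) (Finset.sum_le_sum_of_subset_of_nonneg
      (Finset.subset_univ (prim q))
      (fun χ _ _ => by positivity))
    refine Finset.sum_congr rfl fun χ hχ => ?_
    exact norm_sum_char_sq χ (mem_prim.mp hχ) M N a
  refine h1.trans (le_of_eq ?_)
  rw [parseval_mul]
  congr 1
  refine Finset.sum_bij' (fun (x : ZMod q) _ => (-x).val) (fun (b : ℕ) _ => -(b : ZMod q))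
    ?_ ?_ ?_ ?_ ?_
  · intro x hx
    rw [Finset.mem_filter] at hx ⊢
    refine ⟨Finset.mem_range.mpr (ZMod.val_lt _), ?_⟩
    rw [← ZMod.isUnit_iff_coprime, ZMod.natCast_zmod_val]
    exact hx.2.neg
  · intro b hb
    rw [Finset.mem_filter] at hb ⊢
    refine ⟨Finset.mem_univ _, ?_⟩
    exact ((ZMod.isUnit_iff_coprime b q).mpr hb.2).neg
  · intro x _
    rw [ZMod.natCast_zmod_val, neg_neg]
  · intro b hb
    rw [Finset.mem_filter, Finset.mem_range] at hb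
    rw [neg_neg, ZMod.val_natCast, Nat.mod_eq_of_lt hb.1]
  · intro x _
    rw [TT_eq_stdAddChar, ZMod.natCast_zmod_val]

/-- **The large sieve inequality for primitive characters.** -/
theorem mult_large_sieve_pi (Q M N : ℕ) (a : ℕ → ℂ) :
    ∑ q ∈ Icc 1 Q, ((q : ℝ) / q.totient)
        * ∑ χ ∈ prim q,
          ‖∑ n ∈ Ioc M (M + N), a n * χ (n : ZMod q)‖ ^ 2
      ≤ ((Q : ℝ) ^ 2 + 2 * Real.pi * N) * ∑ n ∈ Ioc M (M + N), ‖a n‖ ^ 2 := by
  refine le_trans (Finset.sum_le_sum fun q hq => ?_) (farey_large_sieve Q M N a)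
  rw [Finset.mem_Icc] at hq
  have : NeZero q := ⟨by omega⟩
  have hφ : (0:ℝ) < q.totient := by exact_mod_cast Nat.totient_pos.mpr (by omega)
  rw [div_mul_eq_mul_div, div_le_iff₀ hφ, mul_comm _ (q.totient : ℝ)]
  exact sum_prim_le M N a

/-- **The large sieve inequality for primitive characters.** -/
theorem mult_large_sieve (Q M N : ℕ) (a : ℕ → ℂ) :
    ∑ q ∈ Icc 1 Q, ((q : ℝ) / q.totient)
        * ∑ χ ∈ prim q,
          ‖∑ n ∈ Ioc M (M + N), a n * χ (n : ZMod q)‖ ^ 2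
      ≤ ((Q : ℝ) ^ 2 + 7 * N) * ∑ n ∈ Ioc M (M + N), ‖a n‖ ^ 2 := by
  refine (mult_large_sieve_pi Q M N a).trans ?_
  refine mul_le_mul_of_nonneg_right ?_ (Finset.sum_nonneg fun n _ => by positivity)
  have h1 : 2 * Real.pi ≤ 7 := by linarith [Real.pi_lt_d2]
  have h2 : (0:ℝ) ≤ N := Nat.cast_nonneg N
  nlinarith

/-- The bilinear form of the large sieve (Cauchy–Schwarz). -/
theorem bilinear_large_sieve (Q M N M' N' : ℕ) (a b : ℕ → ℂ) :
    ∑ q ∈ Icc 1 Q, ((q : ℝ) / q.totient)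
        * ∑ χ ∈ prim q,
          ‖∑ m ∈ Ioc M (M + N), a m * χ (m : ZMod q)‖
            * ‖∑ n ∈ Ioc M' (M' + N'), b n * χ (n : ZMod q)‖
      ≤ Real.sqrt (((Q : ℝ) ^ 2 + 7 * N) * ∑ n ∈ Ioc M (M + N), ‖a n‖ ^ 2)
        * Real.sqrt (((Q : ℝ) ^ 2 + 7 * N') * ∑ n ∈ Ioc M' (M' + N'), ‖b n‖ ^ 2) := by
  classical
  set F : (Σ q : ℕ, DirichletCharacter ℂ q) → ℝ := fun x =>
    Real.sqrt ((x.1 : ℝ) / x.1.totient) * ‖∑ m ∈ Ioc M (M + N), a m * x.2 (m : ZMod x.1)‖ with hF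
  set G : (Σ q : ℕ, DirichletCharacter ℂ q) → ℝ := fun x =>
    Real.sqrt ((x.1 : ℝ) / x.1.totient) * ‖∑ m ∈ Ioc M' (M' + N'), b m * x.2 (m : ZMod x.1)‖ with hG
  have hcs := Real.sum_mul_le_sqrt_mul_sqrt ((Icc 1 Q).sigma prim) F G
  have e1 : ∑ x ∈ (Icc 1 Q).sigma prim, F x * G x
      = ∑ q ∈ Icc 1 Q, ((q : ℝ) / q.totient) * ∑ χ ∈ prim q,
          ‖∑ m ∈ Ioc M (M + N), a m * χ (m : ZMod q)‖
            * ‖∑ n ∈ Ioc M' (M' + N'), b n * χ (n : ZMod q)‖ := by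
    rw [Finset.sum_sigma]
    refine Finset.sum_congr rfl fun q _ => ?_
    rw [Finset.mul_sum]
    refine Finset.sum_congr rfl fun χ _ => ?_
    simp only [hF, hG]
    have h3 : (0:ℝ) ≤ (q : ℝ) / q.totient := by positivity
    nth_rewrite 3 [← Real.mul_self_sqrt h3]
    ring
  have e2 : ∑ x ∈ (Icc 1 Q).sigma prim, F x ^ 2
      = ∑ q ∈ Icc 1 Q, ((q : ℝ) / q.totient) * ∑ χ ∈ prim q,
          ‖∑ m ∈ Ioc M (M + N), a m * χ (m : ZMod q)‖ ^ 2 := by
    rw [Finset.sum_sigma]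
    refine Finset.sum_congr rfl fun q _ => ?_
    rw [Finset.mul_sum]
    refine Finset.sum_congr rfl fun χ _ => ?_
    simp only [hF]
    rw [mul_pow, Real.sq_sqrt (by positivity)]
  have e3 : ∑ x ∈ (Icc 1 Q).sigma prim, G x ^ 2
      = ∑ q ∈ Icc 1 Q, ((q : ℝ) / q.totient) * ∑ χ ∈ prim q,
          ‖∑ m ∈ Ioc M' (M' + N'), b m * χ (m : ZMod q)‖ ^ 2 := by
    rw [Finset.sum_sigma]
    refine Finset.sum_congr rfl fun q _ => ?_
    rw [Finset.mul_sum]
    refine Finset.sum_congr rfl fun χ _ => ?_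
    simp only [hG]
    rw [mul_pow, Real.sq_sqrt (by positivity)]
  rw [e1, e2, e3] at hcs
  refine hcs.trans ?_
  exact mul_le_mul (Real.sqrt_le_sqrt (mult_large_sieve Q M N a))
    (Real.sqrt_le_sqrt (mult_large_sieve Q M' N' b)) (Real.sqrt_nonneg _) (Real.sqrt_nonneg _)

end Pool.Agent.LS
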